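import Pool.Agent.QSX.StmtsA

/-!
# Squad QSX, row CMR: the commutator relation for the powers of the first steps
-/

set_option autoImplicit false

namespace Pool.Agent.QSX.H51

open Pool.Agent.QSX

section

variable {ι G H : Type} [Group G] [Group H]

theorem u_zero (D : RG ι G H) (l : ι) : D.u l 0 = 1 := by
  have h := D.add l 0 0
  rw [add_zero] at h
  exact (mul_eq_left.mp h.symm)

theorem u_mem (D : RG ι G H) (l : ι) (x : ℚ) : D.u l x ∈ D.Gam :=
  Subgroup.subset_closure ⟨l, x, rfl⟩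

theorem V_zero (D : RG ι G H) (l : ι) : D.V l 1 0 = 1 := by
  unfold RG.V
  rw [u_zero, mul_one, inv_mul_cancel]

theorem V_succ (D : RG ι G H) (l : ι) (x : ℚ) :
    D.V l 1 (x + 1) = D.V l 1 x * D.V l (D.u l x) 1 := by
  unfold RG.V
  rw [D.add, one_mul, one_mul]
  group

/-- the group generated by the first steps of the other root elements -/
def Gl (D : RG ι G H) (l : ι) : Subgroup H :=
  Subgroup.closure {g | ∃ (m : ι) (y : ℚ), m ≠ l ∧ g = D.V m 1 y}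

theorem V_mem (D : RG ι G H) (l m : ι) (h : m ≠ l) (y : ℚ) : D.V m 1 y ∈ Gl D l :=
  Subgroup.subset_closure ⟨m, y, h, rfl⟩

theorem R_mem (D : RG ι G H) (l m : ι) (h : l ≠ m) (x y : ℚ) :
    ((D.L l m).map fun t => D.V t.1 1 (t.2.2.2 * x ^ t.2.1 * y ^ t.2.2.1)).prod ∈ Gl D l := by
  apply Subgroup.list_prod_mem
  intro g hg
  obtain ⟨t, ht, rfl⟩ := List.mem_map.mp hg
  exact V_mem D l t.1 (D.ne l m h t ht).1 _

/-- the conjugates of a generator -/
theorem conj_gen (h : CrlStmt) (D : RG ι G H) (hI : D.Inv) (l m : ι) (hlm : l ≠ m) (x y : ℚ) :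
    D.V l (D.u l x) 1 * D.V m 1 y * (D.V l (D.u l x) 1)⁻¹ =
      ((D.L l m).map fun t => D.V t.1 1 (t.2.2.2 * 1 ^ t.2.1 * y ^ t.2.2.1)).prod *
        D.V m 1 y := by
  have h1 := h ι G H D hI l m hlm (D.u l x) (u_mem D l x) 1 y
  have h2 : D.V m (D.u l x) y = D.V m 1 y := by
    have h3 := hI m l hlm.symm 1 (one_mem _) y x
    rwa [one_mul] at h3
  rw [h2] at h1
  rw [← h1, inv_mul_cancel_right]

/-- the conjugation with every step agrees with the conjugation with the first step -/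
theorem conj_eq (h : CrlStmt) (D : RG ι G H) (hI : D.Inv) (l : ι) (x : ℚ) (g : H)
    (hg : g ∈ Gl D l) :
    D.V l (D.u l x) 1 * g * (D.V l (D.u l x) 1)⁻¹ = D.V l 1 1 * g * (D.V l 1 1)⁻¹ := by
  unfold Gl at hg
  induction hg using Subgroup.closure_induction with
  | mem g hg =>
    obtain ⟨m, y, hm, rfl⟩ := hg
    have h1 := conj_gen h D hI l m hm.symm x y
    have h2 := conj_gen h D hI l m hm.symm 0 y
    rw [u_zero] at h2
    rw [h1, h2]
  | one => rw [mul_one, mul_one, mul_inv_cancel, mul_inv_cancel]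
  | mul a b _ _ ha hb =>
    have e1 : ∀ c : H, c * (a * b) * c⁻¹ = (c * a * c⁻¹) * (c * b * c⁻¹) := by
      intro c; group
    rw [e1, e1, ha, hb]
  | inv a _ ha =>
    have e1 : ∀ c : H, c * a⁻¹ * c⁻¹ = (c * a * c⁻¹)⁻¹ := by
      intro c; group
    rw [e1, e1, ha]

theorem conj_mem (h : CrlStmt) (D : RG ι G H) (hI : D.Inv) (l : ι) (g : H)
    (hg : g ∈ Gl D l) : D.V l 1 1 * g * (D.V l 1 1)⁻¹ ∈ Gl D l := by
  have key : ∀ g ∈ Gl D l, D.V l 1 1 * g * (D.V l 1 1)⁻¹ ∈ Gl D l := by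
    intro g hg
    have hg' : g ∈ Subgroup.closure {g | ∃ (m : ι) (y : ℚ), m ≠ l ∧ g = D.V m 1 y} := hg
    induction hg' using Subgroup.closure_induction with
    | mem g hg1 =>
      obtain ⟨m, y, hm, rfl⟩ := hg1
      have h2 := conj_gen h D hI l m hm.symm 0 y
      rw [u_zero] at h2
      rw [h2]
      exact mul_mem (R_mem D l m hm.symm 1 y) (V_mem D l m hm y)
    | one => rw [mul_one, mul_inv_cancel]; exact one_mem _
    | mul a b ha1 hb1 ha hb =>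
      have e1 : ∀ c : H, c * (a * b) * c⁻¹ = (c * a * c⁻¹) * (c * b * c⁻¹) := by
        intro c; group
      rw [e1]
      exact mul_mem (ha ha1) (hb hb1)
    | inv a ha1 ha =>
      have e1 : ∀ c : H, c * a⁻¹ * c⁻¹ = (c * a * c⁻¹)⁻¹ := by
        intro c; group
      rw [e1]
      exact inv_mem (ha ha1)
  exact key g hg

/-- the conjugation with the total step over a natural number -/
theorem star (h : CrlStmt) (D : RG ι G H) (hI : D.Inv) (l : ι) (x : ℕ) :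
    ∀ g ∈ Gl D l, D.V l 1 (x : ℚ) * g * (D.V l 1 (x : ℚ))⁻¹ =
      (D.V l 1 1) ^ x * g * ((D.V l 1 1) ^ x)⁻¹ := by
  induction x with
  | zero =>
    intro g _
    rw [Nat.cast_zero, V_zero, pow_zero]
  | succ n ih =>
    intro g hg
    rw [Nat.cast_succ, V_succ]
    have e1 : D.V l 1 (n : ℚ) * D.V l (D.u l (n : ℚ)) 1 * g *
        (D.V l 1 (n : ℚ) * D.V l (D.u l (n : ℚ)) 1)⁻¹ =
        D.V l 1 (n : ℚ) * (D.V l (D.u l (n : ℚ)) 1 * g * (D.V l (D.u l (n : ℚ)) 1)⁻¹) *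
          (D.V l 1 (n : ℚ))⁻¹ := by group
    rw [e1, conj_eq h D hI l n g hg, ih _ (conj_mem h D hI l g hg), pow_succ]
    group

end

theorem cmr (h : CrlStmt) : CmrStmt := by
  intro ι G H _ _ D hI l l' hll x y
  have h1 := h ι G H D hI l l' hll 1 (one_mem _) (x : ℚ) (y : ℚ)
  rw [star h D hI l x _ (V_mem D l l' hll.symm (y : ℚ))] at h1
  have h2 : ((D.V l 1 1) ^ x)⁻¹ ∈ Gl D l' :=
    inv_mem (pow_mem (V_mem D l' l hll 1) x)
  have h3 := star h D hI l' y _ h2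
  rw [← h1]
  have e1 : (D.V l 1 1) ^ x * (D.V l' 1 1) ^ y * ((D.V l 1 1) ^ x)⁻¹ * ((D.V l' 1 1) ^ y)⁻¹ =
      (D.V l 1 1) ^ x * ((D.V l' 1 1) ^ y * ((D.V l 1 1) ^ x)⁻¹ * ((D.V l' 1 1) ^ y)⁻¹) := by
    group
  have e2 : (D.V l 1 1) ^ x * D.V l' 1 (y : ℚ) * ((D.V l 1 1) ^ x)⁻¹ * (D.V l' 1 (y : ℚ))⁻¹ =
      (D.V l 1 1) ^ x * (D.V l' 1 (y : ℚ) * ((D.V l 1 1) ^ x)⁻¹ * (D.V l' 1 (y : ℚ))⁻¹) := by
    group
  rw [e1, e2, h3]

end Pool.Agent.QSX.H51
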